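import Pool.Agent.V11128.SHL.Curt

set_option autoImplicit false

/-! Laplace transforms: rational points of the simplex suffice. -/

namespace Pool.Agent.V11128.SHL

open MeasureTheory Filter Topology ProbabilityTheory
open Pool.Agent.Y753.SHL

variable {n : ℕ}

/-- one coordinate -/
lemma conv1 {lo hi θ x : ℝ} (h1 : lo < θ) (h2 : θ < hi) :
    Real.exp (θ * x) ≤ (hi - θ) / (hi - lo) * Real.exp (lo * x) +
      (θ - lo) / (hi - lo) * Real.exp (hi * x) := by
  have hd : 0 < hi - lo := by linarith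
  have q1 : 0 ≤ (hi - θ) / (hi - lo) := div_nonneg (by linarith) hd.le
  have q2 : 0 ≤ (θ - lo) / (hi - lo) := div_nonneg (by linarith) hd.le
  have q3 : (hi - θ) / (hi - lo) + (θ - lo) / (hi - lo) = 1 := by
    rw [← add_div, div_eq_one_iff_eq hd.ne']
    ring
  have h3 := convexOn_exp.2 (Set.mem_univ (lo * x)) (Set.mem_univ (hi * x)) q1 q2 q3
  simp only [smul_eq_mul] at h3
  refine le_trans (le_of_eq ?_) h3
  congr 1
  field_simp
  ring

/-- the weights of the corners -/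
noncomputable def wj (lo hi θ : Fin n → ℝ) (j : Fin n) (s : Bool) : ℝ :=
  if s then (θ j - lo j) / (hi j - lo j) else (hi j - θ j) / (hi j - lo j)

/-- the corners -/
def cj (lo hi : Fin n → ℝ) (σ : Fin n → Bool) (j : Fin n) : ℝ := if σ j then hi j else lo j

lemma wj_nonneg {lo hi θ : Fin n → ℝ} (h1 : ∀ j, lo j < θ j) (h2 : ∀ j, θ j < hi j) (j : Fin n)
    (s : Bool) : 0 ≤ wj lo hi θ j s := by
  have a1 := h1 j
  have a2 := h2 j
  unfold wj
  split_ifs
  · exact div_nonneg (by linarith) (by linarith)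
  · exact div_nonneg (by linarith) (by linarith)

lemma w_sum {lo hi θ : Fin n → ℝ} (h1 : ∀ j, lo j < θ j) (h2 : ∀ j, θ j < hi j) :
    ∑ σ : Fin n → Bool, ∏ j, wj lo hi θ j (σ j) = 1 := by
  have h3 := Finset.prod_univ_sum (fun _ : Fin n => (Finset.univ : Finset Bool)) (fun j s => wj lo hi θ j s)
  rw [Fintype.piFinset_univ] at h3
  rw [← h3]
  refine Finset.prod_eq_one fun j _ => ?_
  have a1 := h1 j
  have a2 := h2 j
  have hd : hi j - lo j ≠ 0 := by linarith
  rw [Fintype.sum_bool]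
  unfold wj
  rw [if_pos rfl, if_neg (by simp), ← add_div, div_eq_one_iff_eq hd]
  ring

/-- all coordinates -/
lemma convn {lo hi θ : Fin n → ℝ} (h1 : ∀ j, lo j < θ j) (h2 : ∀ j, θ j < hi j) (y : Fin n → ℝ) :
    Real.exp (lf θ y) ≤ ∑ σ : Fin n → Bool, (∏ j, wj lo hi θ j (σ j)) *
      Real.exp (lf (cj lo hi σ) y) := by
  have h3 := Finset.prod_univ_sum (fun _ : Fin n => (Finset.univ : Finset Bool))
    (fun j s => wj lo hi θ j s * Real.exp ((if s then hi j else lo j) * y j))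
  rw [Fintype.piFinset_univ] at h3
  have e1 : ∀ σ : Fin n → Bool, (∏ j, wj lo hi θ j (σ j)) * Real.exp (lf (cj lo hi σ) y) =
      ∏ j, (wj lo hi θ j (σ j) * Real.exp ((if σ j then hi j else lo j) * y j)) := by
    intro σ
    rw [Finset.prod_mul_distrib]
    congr 1
    unfold lf cj
    rw [Real.exp_sum]
  rw [Finset.sum_congr rfl fun σ _ => e1 σ, ← h3]
  unfold lf
  rw [Real.exp_sum]
  refine Finset.prod_le_prod (fun j _ => (Real.exp_pos _).le) fun j _ => ?_
  rw [Fintype.sum_bool]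
  unfold wj
  simp only [if_true]
  have := conv1 (x := y j) (h1 j) (h2 j)
  rw [add_comm] at this
  exact this

/-- the limit of the Laplace transforms -/
noncomputable def LL (m : Fin n → ℝ) (C : Fin n → Fin n → ℝ) (θ : Fin n → ℝ) : ℝ :=
  Real.exp (lf θ m + qf C θ / 2)

lemma LL_cont (m : Fin n → ℝ) (C : Fin n → Fin n → ℝ) : Continuous (LL m C) := by
  unfold LL lf qf
  fun_prop

lemma near_LL (m : Fin n → ℝ) (C : Fin n → Fin n → ℝ) (θ : Fin n → ℝ) {ε : ℝ} (hε : 0 < ε) :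
    ∃ δ : ℝ, 0 < δ ∧ ∀ θ' : Fin n → ℝ, (∀ j, |θ' j - θ j| < δ) → |LL m C θ' - LL m C θ| < ε := by
  obtain ⟨δ, hδ, h⟩ := Metric.continuous_iff.1 (LL_cont m C) θ ε hε
  refine ⟨δ, hδ, fun θ' h1 => ?_⟩
  have := h θ' ((dist_pi_lt_iff hδ).2 fun j => by rw [Real.dist_eq]; exact h1 j)
  rwa [Real.dist_eq] at this

/-- the open simplex is open -/
lemma room {b : ℝ} {θ : Fin n → ℝ} (h1 : ∀ j, 0 < θ j) (h2 : ∑ j, θ j < b) :
    ∃ δ : ℝ, 0 < δ ∧ ∀ θ' : Fin n → ℝ, (∀ j, |θ' j - θ j| < δ) → (∀ j, 0 < θ' j) ∧ ∑ j, θ' j < b := by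
  have hop : IsOpen {θ' : Fin n → ℝ | (∀ j, 0 < θ' j) ∧ ∑ j, θ' j < b} := by
    have e : {θ' : Fin n → ℝ | (∀ j, 0 < θ' j) ∧ ∑ j, θ' j < b} =
        (⋂ j, {θ' : Fin n → ℝ | 0 < θ' j}) ∩ {θ' : Fin n → ℝ | ∑ j, θ' j < b} := by
      ext θ'
      simp
    rw [e]
    exact IsOpen.inter (isOpen_iInter_of_finite fun j => isOpen_lt continuous_const
      (continuous_apply j)) (isOpen_lt (continuous_finsetSum _ fun j _ => continuous_apply j)
        continuous_const)
  obtain ⟨δ, hδ, h⟩ := Metric.isOpen_iff.1 hop θ ⟨h1, h2⟩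
  refine ⟨δ, hδ, fun θ' h3 => ?_⟩
  exact h (Metric.mem_ball.2 ((dist_pi_lt_iff hδ).2 fun j => by rw [Real.dist_eq]; exact h3 j))

/-- rational points -/
def RatPt (b : ℝ) (θ : Fin n → ℝ) : Prop := ∃ q : Fin n → ℚ, θ = fun j => b * q j

lemma rat_between {b x y : ℝ} (hb : 0 < b) (h : x < y) : ∃ q : ℚ, x < b * q ∧ b * q < y := by
  obtain ⟨q, h1, h2⟩ := exists_rat_btwn (div_lt_div_of_pos_right h hb)
  refine ⟨q, ?_, ?_⟩
  · rw [div_lt_iff₀ hb] at h1
    linarith
  · rw [lt_div_iff₀ hb] at h2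
    linarith

/-- the upper bound and integrability at all points -/
lemma upper {μ : ℝ → ProbabilityMeasure (Fin n → ℝ)} {m : Fin n → ℝ} {C : Fin n → Fin n → ℝ} {b : ℝ}
    (hb : 0 < b)
    (h : ∀ q : Fin n → ℚ, (∀ j, 0 < q j) → ∑ j, (q j : ℝ) < 1 → Lap μ m C (fun j => b * q j))
    {θ : Fin n → ℝ} (h1 : ∀ j, 0 < θ j) (h2 : ∑ j, θ j < b) {ε : ℝ} (hε : 0 < ε) :
    ∀ᶠ T in atTop, Integrable (fun y => Real.exp (lf θ y)) (μ T : Measure (Fin n → ℝ)) ∧
      ∫ y, Real.exp (lf θ y) ∂(μ T : Measure (Fin n → ℝ)) ≤ LL m C θ + ε := by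
  obtain ⟨δ1, hδ1, g1⟩ := near_LL m C θ (half_pos hε)
  obtain ⟨δ2, hδ2, g2⟩ := room h1 h2
  obtain ⟨δ, hδ⟩ : ∃ δ, δ = min δ1 δ2 := ⟨_, rfl⟩
  have hδ0 : 0 < δ := by rw [hδ]; exact lt_min hδ1 hδ2
  choose ql hl1 hl2 using fun j => rat_between hb (show θ j - δ < θ j by linarith)
  choose qh hh1 hh2 using fun j => rat_between hb (show θ j < θ j + δ by linarith)
  obtain ⟨lo, hlo⟩ : ∃ lo : Fin n → ℝ, lo = fun j => b * ql j := ⟨_, rfl⟩
  obtain ⟨hi, hhi⟩ : ∃ hi : Fin n → ℝ, hi = fun j => b * qh j := ⟨_, rfl⟩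
  have a1 : ∀ j, lo j < θ j := fun j => by rw [hlo]; exact hl2 j
  have a2 : ∀ j, θ j < hi j := fun j => by rw [hhi]; exact hh1 j
  have hc : ∀ (σ : Fin n → Bool) (j : Fin n), |cj lo hi σ j - θ j| < δ := by
    intro σ j
    unfold cj
    split_ifs
    · rw [hhi]
      have b1 := hh1 j
      have b2 := hh2 j
      simp only
      rw [abs_of_pos (by linarith)]
      linarith
    · rw [hlo]
      have b1 := hl1 j
      have b2 := hl2 j
      simp only
      rw [abs_of_neg (by linarith)]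
      linarith
  have hL : ∀ σ : Fin n → Bool, Lap μ m C (cj lo hi σ) := by
    intro σ
    have e1 : cj lo hi σ = fun j => b * ((if σ j then qh j else ql j : ℚ) : ℝ) := by
      funext j
      unfold cj
      rw [hlo, hhi]
      split_ifs <;> rfl
    obtain ⟨r1, r2⟩ := g2 (cj lo hi σ) fun j => (hc σ j).trans_le (by rw [hδ]; exact min_le_right _ _)
    rw [e1] at r1 r2 ⊢
    refine h _ (fun j => ?_) ?_
    · have := r1 j
      simp only at this
      have h3 : (0 : ℝ) < ((if σ j then qh j else ql j : ℚ) : ℝ) := by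
        by_contra hcon
        push Not at hcon
        have := mul_nonpos_of_nonneg_of_nonpos hb.le hcon
        linarith
      exact_mod_cast h3
    · rw [← Finset.mul_sum] at r2
      have := (mul_lt_iff_lt_one_right hb).1 r2
      exact this
  have hev : ∀ᶠ T in atTop, ∀ σ : Fin n → Bool,
      Integrable (fun y => Real.exp (lf (cj lo hi σ) y)) (μ T : Measure (Fin n → ℝ)) ∧
      ∫ y, Real.exp (lf (cj lo hi σ) y) ∂(μ T : Measure (Fin n → ℝ)) ≤ LL m C (cj lo hi σ) + ε / 2 := by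
    rw [eventually_all]
    intro σ
    obtain ⟨i1, i2⟩ := hL σ
    have hlt : Real.exp (lf (cj lo hi σ) m + qf C (cj lo hi σ) / 2) <
        LL m C (cj lo hi σ) + ε / 2 := by
      unfold LL
      linarith
    filter_upwards [i1, i2.eventually (gt_mem_nhds hlt)] with T t1 t2
    exact ⟨t1, t2.le⟩
  filter_upwards [hev] with T hT
  have hint : Integrable (fun y => ∑ σ : Fin n → Bool, (∏ j, wj lo hi θ j (σ j)) *
      Real.exp (lf (cj lo hi σ) y)) (μ T : Measure (Fin n → ℝ)) :=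
    integrable_finsetSum _ fun σ _ => (hT σ).1.const_mul _
  have hcont : Continuous fun y : Fin n → ℝ => Real.exp (lf θ y) := by
    unfold lf
    fun_prop
  have hi1 : Integrable (fun y => Real.exp (lf θ y)) (μ T : Measure (Fin n → ℝ)) := by
    refine hint.mono' hcont.aestronglyMeasurable (Eventually.of_forall fun y => ?_)
    rw [Real.norm_of_nonneg (Real.exp_pos _).le]
    exact convn a1 a2 y
  refine ⟨hi1, (integral_mono hi1 hint fun y => convn a1 a2 y).trans ?_⟩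
  rw [integral_finsetSum _ fun σ _ => (hT σ).1.const_mul _]
  have h4 : ∀ σ : Fin n → Bool, ∫ y, (∏ j, wj lo hi θ j (σ j)) * Real.exp (lf (cj lo hi σ) y)
      ∂(μ T : Measure (Fin n → ℝ)) ≤ (∏ j, wj lo hi θ j (σ j)) * (LL m C θ + ε) := by
    intro σ
    rw [integral_const_mul]
    refine mul_le_mul_of_nonneg_left ((hT σ).2.trans ?_)
      (Finset.prod_nonneg fun j _ => wj_nonneg a1 a2 j _)
    have := (abs_lt.1 (g1 (cj lo hi σ) fun j => (hc σ j).trans_le (by
      rw [hδ]; exact min_le_left _ _))).2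
    linarith
  refine (Finset.sum_le_sum fun σ _ => h4 σ).trans ?_
  rw [← Finset.sum_mul, w_sum a1 a2, one_mul]

/-- job SHL-DENSE -/
theorem dense : S_DENSE := by
  intro n μ m C b hb h θ h1 h2
  refine ⟨(upper hb h h1 h2 one_pos).mono fun T hT => hT.1, ?_⟩
  change Tendsto _ atTop (𝓝 (LL m C θ))
  rw [Metric.tendsto_nhds]
  intro ε hε
  obtain ⟨δ1, hδ1, g1⟩ := near_LL m C θ (show 0 < ε / 8 by positivity)
  obtain ⟨δ2, hδ2, g2⟩ := room h1 h2
  obtain ⟨δ, hδ⟩ : ∃ δ, δ = min δ1 δ2 := ⟨_, rfl⟩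
  have hδ0 : 0 < δ := by rw [hδ]; exact lt_min hδ1 hδ2
  have hδ1' : δ ≤ δ1 := by rw [hδ]; exact min_le_left _ _
  have hδ2' : δ ≤ δ2 := by rw [hδ]; exact min_le_right _ _
  choose q hq1 hq2 using fun j => rat_between hb (show θ j < θ j + δ / 2 by linarith)
  obtain ⟨q', hq'⟩ : ∃ q' : Fin n → ℝ, ∀ j, q' j = b * q j := ⟨_, fun _ => rfl⟩
  obtain ⟨p, hp⟩ : ∃ p : Fin n → ℝ, ∀ j, p j = 2 * q' j - θ j := ⟨_, fun _ => rfl⟩
  have d1 : ∀ j, |q' j - θ j| < δ := fun j => by
    rw [hq', abs_of_pos (by linarith [hq1 j])]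
    linarith [hq2 j]
  have d2 : ∀ j, |p j - θ j| < δ := fun j => by
    rw [hp, hq', abs_of_pos (by linarith [hq1 j])]
    linarith [hq2 j]
  have r1 := g2 q' fun j => (d1 j).trans_le hδ2'
  have r2 := g2 p fun j => (d2 j).trans_le hδ2'
  have s1 := abs_lt.1 (g1 q' fun j => (d1 j).trans_le hδ1')
  have s2 := abs_lt.1 (g1 p fun j => (d2 j).trans_le hδ1')
  have hLq : Lap μ m C q' := by
    have e1 : q' = fun j => b * (q j : ℝ) := funext hq'
    have r3 := r1.2
    rw [e1]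
    refine h q (fun j => ?_) ?_
    · have h4 := r1.1 j
      rw [hq'] at h4
      have h3 : (0 : ℝ) < (q j : ℝ) := by
        by_contra hcon
        push Not at hcon
        have := mul_nonpos_of_nonneg_of_nonpos hb.le hcon
        linarith
      exact_mod_cast h3
    · simp only [hq'] at r3
      rw [← Finset.mul_sum] at r3
      exact (mul_lt_iff_lt_one_right hb).1 r3
  obtain ⟨i1, i2⟩ := hLq
  have hlt : LL m C q' - ε / 8 < Real.exp (lf q' m + qf C q' / 2) := by
    unfold LL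
    linarith
  filter_upwards [upper hb h h1 h2 (half_pos hε), upper hb h r2.1 r2.2 (show 0 < ε / 8 by positivity),
    i1, i2.eventually (lt_mem_nhds hlt)] with T t1 t2 t3 t4
  have key : ∫ y, Real.exp (lf q' y) ∂(μ T : Measure (Fin n → ℝ)) ≤
      (1 / 2) * (∫ y, Real.exp (lf θ y) ∂(μ T : Measure (Fin n → ℝ))) +
        (1 / 2) * ∫ y, Real.exp (lf p y) ∂(μ T : Measure (Fin n → ℝ)) := by
    rw [← integral_const_mul, ← integral_const_mul, ← integral_add (t1.1.const_mul _) (t2.1.const_mul _)]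
    refine integral_mono t3 ((t1.1.const_mul _).add (t2.1.const_mul _)) fun y => ?_
    have h3 := convexOn_exp.2 (Set.mem_univ (lf θ y)) (Set.mem_univ (lf p y))
      (show (0:ℝ) ≤ 1 / 2 by norm_num) (show (0:ℝ) ≤ 1 / 2 by norm_num) (by norm_num)
    simp only [smul_eq_mul] at h3
    refine le_trans (le_of_eq ?_) h3
    have e2 : lf p y = 2 * lf q' y - lf θ y := by
      unfold lf
      rw [Finset.mul_sum, ← Finset.sum_sub_distrib]
      exact Finset.sum_congr rfl fun j _ => by rw [hp]; ring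
    show Real.exp (lf q' y) = _
    rw [e2]
    congr 1
    ring
  rw [Real.dist_eq, abs_lt]
  constructor
  · linarith [t2.2]
  · linarith [t1.2]

end Pool.Agent.V11128.SHL
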