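import Pool.Agent.V11128.SHL.Ball

set_option autoImplicit false

/-! The Laplace transforms known in an open simplex with corner zero, normal limit. -/

namespace Pool.Agent.V11128.SHL

open MeasureTheory Filter Topology ProbabilityTheory BoundedContinuousFunction
open Pool.Agent.Y753.SHL

variable {n : ℕ}

/-- the polar form -/
noncomputable def bf (C : Fin n → Fin n → ℝ) (c d : Fin n → ℝ) : ℝ := ∑ i, ∑ j, c i * d j * C i j

lemma lf_add (c d y : Fin n → ℝ) : lf (fun j => c j + d j) y = lf c y + lf d y := by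
  unfold lf
  rw [← Finset.sum_add_distrib]
  exact Finset.sum_congr rfl fun j _ => by ring

lemma lf_neg (c y : Fin n → ℝ) : lf (fun j => - c j) y = - lf c y := by
  unfold lf
  rw [← Finset.sum_neg_distrib]
  exact Finset.sum_congr rfl fun j _ => by ring

lemma bf_symm {C : Fin n → Fin n → ℝ} (hC : ∀ i j, C i j = C j i) (c d : Fin n → ℝ) :
    bf C c d = bf C d c := by
  unfold bf
  rw [Finset.sum_comm]
  exact Finset.sum_congr rfl fun i _ => Finset.sum_congr rfl fun j _ => by rw [hC]; ring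

lemma qf_add {C : Fin n → Fin n → ℝ} (hC : ∀ i j, C i j = C j i) (c d : Fin n → ℝ) :
    qf C (fun j => c j + d j) = qf C c + 2 * bf C c d + qf C d := by
  have h := bf_symm hC c d
  have e : qf C (fun j => c j + d j) = qf C c + bf C c d + bf C d c + qf C d := by
    unfold qf bf
    simp only [← Finset.sum_add_distrib]
    exact Finset.sum_congr rfl fun i _ => Finset.sum_congr rfl fun j _ => by ring
  rw [e, ← h]
  ring

/-- the shifted mean -/
noncomputable def ms (m : Fin n → ℝ) (C : Fin n → Fin n → ℝ) (c : Fin n → ℝ) (j : Fin n) : ℝ :=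
  m j + ∑ i, c i * C i j

lemma lf_ms (m : Fin n → ℝ) (C : Fin n → Fin n → ℝ) (c d : Fin n → ℝ) :
    lf d (ms m C c) = lf d m + bf C c d := by
  unfold lf ms bf
  rw [Finset.sum_comm, ← Finset.sum_add_distrib]
  refine Finset.sum_congr rfl fun j _ => ?_
  rw [mul_add, Finset.mul_sum]
  congr 1
  exact Finset.sum_congr rfl fun i _ => by ring

lemma ms_back (m : Fin n → ℝ) (C : Fin n → Fin n → ℝ) (c : Fin n → ℝ) :
    ms (ms m C c) C (fun j => - c j) = m := by
  funext j
  unfold ms
  simp only [neg_mul, Finset.sum_neg_distrib]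
  ring

lemma nor_int {m : Fin n → ℝ} {C : Fin n → Fin n → ℝ} {ρ : ProbabilityMeasure (Fin n → ℝ)}
    (h : Nor m C ρ) (c : Fin n → ℝ) :
    Integrable (fun y => Real.exp (lf c y)) (ρ : Measure (Fin n → ℝ)) := by
  have h1 := gauss_int (lf c m) (qf C c).toNNReal 1
  rw [← (h c).2, integrable_map_measure (by fun_prop) (lf_cont c).measurable.aemeasurable] at h1
  simpa [Function.comp_def] using h1

lemma nor_exp {m : Fin n → ℝ} {C : Fin n → Fin n → ℝ} {ρ : ProbabilityMeasure (Fin n → ℝ)}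
    (h : Nor m C ρ) (c : Fin n → ℝ) :
    ∫ y, Real.exp (lf c y) ∂(ρ : Measure (Fin n → ℝ)) = Real.exp (lf c m + qf C c / 2) := by
  have h1 := gauss_mgf' (lf c m) (qf C c).toNNReal 1
  rw [← (h c).2, integral_map (lf_cont c).measurable.aemeasurable (by fun_prop),
    Real.coe_toNNReal _ (h c).1] at h1
  simpa using h1

/-- the exponential tilt of a normal law -/
lemma nor_tilt {m : Fin n → ℝ} {C : Fin n → Fin n → ℝ} {ν : ProbabilityMeasure (Fin n → ℝ)}
    (hC : ∀ i j, C i j = C j i) (h : Nor m C ν) (c0 : Fin n → ℝ) :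
    ∃ ρ : ProbabilityMeasure (Fin n → ℝ),
      (ρ : Measure (Fin n → ℝ)) = (ν : Measure (Fin n → ℝ)).tilted (lf c0) ∧ Nor (ms m C c0) C ρ := by
  have hp : IsProbabilityMeasure ((ν : Measure (Fin n → ℝ)).tilted (lf c0)) :=
    isProbabilityMeasure_tilted (nor_int h c0)
  refine ⟨⟨_, hp⟩, rfl, fun c => ⟨(h c).1, ?_⟩⟩
  change ((ν : Measure (Fin n → ℝ)).tilted (lf c0)).map (lf c) = _
  have hpm : IsProbabilityMeasure (((ν : Measure (Fin n → ℝ)).tilted (lf c0)).map (lf c)) :=
    Measure.isProbabilityMeasure_map (lf_cont c).measurable.aemeasurable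
  have hsum : ∀ (s : ℝ) (y : Fin n → ℝ), Real.exp (lf c0 y) * Real.exp (s * lf c y) =
      Real.exp (lf (fun j => c0 j + s * c j) y) := by
    intro s y
    rw [lf_add c0 (fun j => s * c j) y, lf_smul, Real.exp_add]
  have hE : (0 : ℝ) < ∫ y, Real.exp (lf c0 y) ∂(ν : Measure (Fin n → ℝ)) := by
    rw [nor_exp h c0]
    exact Real.exp_pos _
  refine uniq one_pos (fun s _ => ?_) (fun s _ => gauss_int _ _ s) fun s _ => ?_
  · rw [integrable_map_measure (by fun_prop) (lf_cont c).measurable.aemeasurable,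
      integrable_tilted_iff (nor_int h c0)]
    refine (nor_int h (fun j => c0 j + s * c j)).congr (Eventually.of_forall fun y => ?_)
    simp only [Function.comp, smul_eq_mul]
    exact (hsum s y).symm
  · rw [integral_map (lf_cont c).measurable.aemeasurable (by fun_prop), integral_tilted,
      gauss_mgf', Real.coe_toNNReal _ (h c).1]
    have e1 : ∀ y : Fin n → ℝ, (Real.exp (lf c0 y) / ∫ y, Real.exp (lf c0 y) ∂(ν : Measure (Fin n → ℝ))) •
        Real.exp (s * lf c y) = (∫ y, Real.exp (lf c0 y) ∂(ν : Measure (Fin n → ℝ)))⁻¹ *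
          Real.exp (lf (fun j => c0 j + s * c j) y) := by
      intro y
      rw [← hsum s y, smul_eq_mul]
      ring
    simp_rw [e1]
    rw [integral_const_mul, nor_exp h, nor_exp h, ← Real.exp_neg, ← Real.exp_add, lf_ms,
      lf_add c0 (fun j => s * c j) m, lf_smul, qf_add hC c0 (fun j => s * c j), qf_smul]
    have e2 : bf C c0 (fun j => s * c j) = s * bf C c0 c := by
      unfold bf
      rw [Finset.mul_sum]
      refine Finset.sum_congr rfl fun i _ => ?_
      rw [Finset.mul_sum]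
      exact Finset.sum_congr rfl fun j _ => by ring
    rw [e2]
    congr 1
    ring

/-- a truncated function -/
noncomputable def tr (c : Fin n → ℝ) (G : (Fin n → ℝ) →ᵇ ℝ) (K : ℝ) (hK : 0 ≤ K) : (Fin n → ℝ) →ᵇ ℝ :=
  BoundedContinuousFunction.ofNormedAddCommGroup (fun y => G y * min (Real.exp (lf c y)) K)
    (by have := lf_cont c; fun_prop) (‖G‖ * K) (by
      intro y
      rw [norm_mul]
      refine mul_le_mul (G.norm_coe_le_norm y) ?_ (norm_nonneg _) (norm_nonneg _)
      rw [Real.norm_of_nonneg (le_min (Real.exp_pos _).le hK)]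
      exact min_le_right _ _)

lemma tr_apply (c : Fin n → ℝ) (G : (Fin n → ℝ) →ᵇ ℝ) (K : ℝ) (hK : 0 ≤ K) (y : Fin n → ℝ) :
    tr c G K hK y = G y * min (Real.exp (lf c y)) K := rfl

/-- truncation is harmless -/
lemma tr_lim {c : Fin n → ℝ} {G : (Fin n → ℝ) →ᵇ ℝ} {ν : Measure (Fin n → ℝ)}
    (hi : Integrable (fun y => Real.exp (lf c y)) ν) :
    Tendsto (fun K : ℕ => ∫ y, tr c G K (Nat.cast_nonneg K) y ∂ν) atTop
      (𝓝 (∫ y, G y * Real.exp (lf c y) ∂ν)) := by
  refine tendsto_integral_of_dominated_convergence (fun y => ‖G‖ * Real.exp (lf c y))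
    (fun K => (tr c G K (Nat.cast_nonneg K)).continuous.aestronglyMeasurable) (hi.const_mul _)
    (fun K => Eventually.of_forall fun y => ?_) (Eventually.of_forall fun y => ?_)
  · rw [tr_apply, norm_mul, Real.norm_of_nonneg (le_min (Real.exp_pos _).le (Nat.cast_nonneg K))]
    exact mul_le_mul (G.norm_coe_le_norm y) (min_le_left _ _)
      (le_min (Real.exp_pos _).le (Nat.cast_nonneg K)) (norm_nonneg _)
  · refine tendsto_const_nhds.congr' ?_
    obtain ⟨K0, hK0⟩ := exists_nat_ge (Real.exp (lf c y))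
    filter_upwards [eventually_ge_atTop K0] with K hK
    rw [tr_apply, min_eq_left (hK0.trans (by exact_mod_cast hK))]

/-- job SHL-LAND -/
theorem land : S_LAND := by
  intro n μ m C b hb hC h
  obtain ⟨t, ht⟩ : ∃ t : ℝ, t = b / (2 * (n + 1)) := ⟨_, rfl⟩
  have hn : (0 : ℝ) < (n : ℝ) + 1 := by positivity
  have ht0 : 0 < t := by rw [ht]; positivity
  have htn : (n : ℝ) * t < b / 2 := by
    rw [ht, mul_div_assoc', div_lt_div_iff₀ (by positivity) (by norm_num)]
    nlinarith
  obtain ⟨θ0, hθ0⟩ : ∃ θ0 : Fin n → ℝ, θ0 = fun _ => t := ⟨_, rfl⟩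
  have hL : ∀ η : Fin n → ℝ, (∀ j, |η j| < t / 2) → Lap μ m C (fun j => θ0 j + η j) := by
    intro η hη
    refine h _ (fun j => ?_) ?_
    · have := (abs_lt.1 (hη j)).1
      rw [hθ0]
      simp only
      linarith
    · have h1 : ∑ j, (θ0 j + η j) ≤ ∑ _j : Fin n, (2 * t) := by
        refine Finset.sum_le_sum fun j _ => ?_
        have := (abs_lt.1 (hη j)).2
        rw [hθ0]
        simp only
        linarith
      refine h1.trans_lt ?_
      rw [Finset.sum_const, Finset.card_univ, Fintype.card_fin, nsmul_eq_mul]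
      linarith
  obtain ⟨hI0, hT0⟩ : Lap μ m C θ0 := by
    have := hL (fun _ => 0) (fun j => by simpa using ht0)
    simpa using this
  obtain ⟨L, hLd⟩ : ∃ L : ℝ, L = Real.exp (lf θ0 m + qf C θ0 / 2) := ⟨_, rfl⟩
  have hLpos : 0 < L := by rw [hLd]; exact Real.exp_pos _
  -- the tilted laws
  obtain ⟨ν, hν⟩ : ∃ ν : ℝ → ProbabilityMeasure (Fin n → ℝ), ∀ T,
      Integrable (fun y => Real.exp (lf θ0 y)) (μ T : Measure (Fin n → ℝ)) →
        (ν T : Measure (Fin n → ℝ)) = (μ T : Measure (Fin n → ℝ)).tilted (lf θ0) := by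
    classical
    refine ⟨fun T => if hT : Integrable (fun y => Real.exp (lf θ0 y)) (μ T : Measure (Fin n → ℝ)) then
      ⟨(μ T : Measure (Fin n → ℝ)).tilted (lf θ0), isProbabilityMeasure_tilted hT⟩ else μ T, fun T hT => ?_⟩
    simp only [dif_pos hT]
    rfl
  have hZ : ∀ T, Integrable (fun y => Real.exp (lf θ0 y)) (μ T : Measure (Fin n → ℝ)) →
      0 < ∫ y, Real.exp (lf θ0 y) ∂(μ T : Measure (Fin n → ℝ)) := fun T hT =>
    integral_exp_pos hT
  have hLν : ∀ η : Fin n → ℝ, (∀ j, |η j| < t / 2) → Lap ν (ms m C θ0) C η := by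
    intro η hη
    obtain ⟨hI, hT⟩ := hL η hη
    refine ⟨?_, ?_⟩
    · filter_upwards [hI0, hI] with T a1 a2
      rw [hν T a1, integrable_tilted_iff a1]
      refine a2.congr (Eventually.of_forall fun y => ?_)
      simp only [smul_eq_mul]
      rw [lf_add, Real.exp_add]
    · have h1 := hT.div hT0 (Real.exp_pos _).ne'
      have e1 : Real.exp (lf (fun j => θ0 j + η j) m + qf C (fun j => θ0 j + η j) / 2) /
          Real.exp (lf θ0 m + qf C θ0 / 2) = Real.exp (lf η (ms m C θ0) + qf C η / 2) := by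
        rw [← Real.exp_sub, lf_ms, lf_add, qf_add hC]
        congr 1
        ring
      rw [e1] at h1
      refine h1.congr' ?_
      filter_upwards [hI0] with T a1
      rw [hν T a1, integral_tilted]
      change (∫ y, Real.exp (lf (fun j => θ0 j + η j) y) ∂(μ T : Measure (Fin n → ℝ))) /
        (∫ y, Real.exp (lf θ0 y) ∂(μ T : Measure (Fin n → ℝ))) = _
      rw [← integral_div]
      refine integral_congr_ae (Eventually.of_forall fun y => ?_)
      simp only [smul_eq_mul]
      rw [lf_add, Real.exp_add]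
      ring
  obtain ⟨ν0, hN, hlim⟩ := ball n ν (ms m C θ0) C (t / 2) (by positivity) hC hLν
  obtain ⟨ρ, hρ, hNρ⟩ := nor_tilt hC hN (fun j => - θ0 j)
  rw [ms_back] at hNρ
  refine ⟨ρ, hNρ, ?_⟩
  -- the normalization
  have hnorm : ∫ y, Real.exp (lf (fun j => - θ0 j) y) ∂(ν0 : Measure (Fin n → ℝ)) = L⁻¹ := by
    rw [nor_exp hN, hLd, ← Real.exp_neg, lf_neg, lf_ms]
    have e1 : qf C (fun j => - θ0 j) = qf C θ0 := by
      unfold qf
      exact Finset.sum_congr rfl fun i _ => Finset.sum_congr rfl fun j _ => by ring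
    have e2 : bf C θ0 θ0 = qf C θ0 := rfl
    rw [e1, e2]
    congr 1
    ring
  have hρint : ∀ G : (Fin n → ℝ) →ᵇ ℝ, ∫ y, G y ∂(ρ : Measure (Fin n → ℝ)) =
      L * ∫ y, G y * Real.exp (lf (fun j => - θ0 j) y) ∂(ν0 : Measure (Fin n → ℝ)) := by
    intro G
    rw [hρ, integral_tilted, hnorm, ← integral_const_mul]
    refine integral_congr_ae (Eventually.of_forall fun y => ?_)
    simp only [smul_eq_mul, div_inv_eq_mul]
    ring
  -- the lower bound
  have hlow : ∀ G : (Fin n → ℝ) →ᵇ ℝ, (∀ y, 0 ≤ G y) → ∀ ε : ℝ, 0 < ε → ∀ᶠ T in atTop,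
      ∫ y, G y ∂(ρ : Measure (Fin n → ℝ)) - ε < ∫ y, G y ∂(μ T : Measure (Fin n → ℝ)) := by
    intro G hG ε hε
    have h1 := (tr_lim (G := G) (nor_int hN (fun j => - θ0 j))).const_mul L
    rw [← hρint G] at h1
    obtain ⟨K, hK⟩ := (h1.eventually (lt_mem_nhds (sub_lt_self _ hε))).exists
    have h2 := hT0.mul ((ProbabilityMeasure.tendsto_iff_forall_integral_tendsto.1 hlim)
      (tr (fun j => - θ0 j) G K (Nat.cast_nonneg K)))
    rw [← hLd] at h2
    filter_upwards [h2.eventually (lt_mem_nhds hK), hI0] with T a1 a2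
    refine a1.trans_le ?_
    have hZT := hZ T a2
    rw [hν T a2, integral_tilted, ← integral_const_mul]
    have hb1 : ∀ y : Fin n → ℝ, (∫ y, Real.exp (lf θ0 y) ∂(μ T : Measure (Fin n → ℝ))) *
        ((Real.exp (lf θ0 y) / ∫ y, Real.exp (lf θ0 y) ∂(μ T : Measure (Fin n → ℝ))) •
          tr (fun j => - θ0 j) G K (Nat.cast_nonneg K) y) =
        Real.exp (lf θ0 y) * (G y * min (Real.exp (lf (fun j => - θ0 j) y)) K) := by
      intro y
      rw [smul_eq_mul, tr_apply]
      field_simp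
    have hb2 : ∀ y : Fin n → ℝ, Real.exp (lf θ0 y) * (G y * min (Real.exp (lf (fun j => - θ0 j) y)) K) ≤ G y := by
      intro y
      have h3 : Real.exp (lf θ0 y) * min (Real.exp (lf (fun j => - θ0 j) y)) K ≤ 1 := by
        refine (mul_le_mul_of_nonneg_left (min_le_left _ _) (Real.exp_pos _).le).trans ?_
        rw [lf_neg, ← Real.exp_add]
        simp
      have h4 := mul_le_mul_of_nonneg_left h3 (hG y)
      linarith
    have hb3 : ∀ y : Fin n → ℝ, 0 ≤ Real.exp (lf θ0 y) * (G y * min (Real.exp (lf (fun j => - θ0 j) y)) K) := by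
      intro y
      exact mul_nonneg (Real.exp_pos _).le (mul_nonneg (hG y) (le_min (Real.exp_pos _).le
        (Nat.cast_nonneg K)))
    simp_rw [hb1]
    have c1 := lf_cont θ0
    have c2 := lf_cont (fun j => - θ0 j)
    refine integral_mono ((G.integrable _).mono' (by fun_prop)
      (Eventually.of_forall fun y => ?_)) (G.integrable _) hb2
    rw [Real.norm_of_nonneg (hb3 y)]
    exact hb2 y
  rw [ProbabilityMeasure.tendsto_iff_forall_integral_tendsto]
  intro F
  rw [Metric.tendsto_nhds]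
  intro ε hε
  obtain ⟨cF, hcF⟩ : ∃ cF : (Fin n → ℝ) →ᵇ ℝ, cF = BoundedContinuousFunction.const _ ‖F‖ := ⟨_, rfl⟩
  have hc1 : ∀ y, cF y = ‖F‖ := fun y => by rw [hcF]; rfl
  have k1 := hlow (F + cF) (fun y => by
    have := (abs_le.1 (by simpa using F.norm_coe_le_norm y)).1
    simp only [BoundedContinuousFunction.coe_add, Pi.add_apply, hc1]
    linarith) ε hε
  have k2 := hlow (cF - F) (fun y => by
    have := (abs_le.1 (by simpa using F.norm_coe_le_norm y)).2
    simp only [BoundedContinuousFunction.coe_sub, Pi.sub_apply, hc1]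
    linarith) ε hε
  have e1 : ∀ κ : ProbabilityMeasure (Fin n → ℝ), ∫ y, (F + cF) y
      ∂(κ : Measure (Fin n → ℝ)) = ∫ y, F y ∂(κ : Measure (Fin n → ℝ)) + ‖F‖ := by
    intro κ
    simp only [BoundedContinuousFunction.coe_add, Pi.add_apply, hc1]
    rw [integral_add (F.integrable _) (integrable_const _)]
    simp
  have e2 : ∀ κ : ProbabilityMeasure (Fin n → ℝ), ∫ y, (cF - F) y
      ∂(κ : Measure (Fin n → ℝ)) = ‖F‖ - ∫ y, F y ∂(κ : Measure (Fin n → ℝ)) := by
    intro κ
    simp only [BoundedContinuousFunction.coe_sub, Pi.sub_apply, hc1]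
    rw [integral_sub (integrable_const _) (F.integrable _)]
    simp
  filter_upwards [k1, k2] with T a1 a2
  rw [e1, e1] at a1
  rw [e2, e2] at a2
  rw [Real.dist_eq, abs_lt]
  constructor <;> linarith

end Pool.Agent.V11128.SHL
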