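import Pool.Agent.V11128.SHL.Curt

set_option autoImplicit false

/-! Curtiss' theorem in `ℝ^n`, Laplace transforms in a neighbourhood of zero, normal limit. -/

namespace Pool.Agent.V11128.SHL

open MeasureTheory Filter Topology ProbabilityTheory BoundedContinuousFunction
open Pool.Agent.Y753.SHL

variable {n : ℕ}

lemma lf_cont (c : Fin n → ℝ) : Continuous (lf c) := by
  unfold lf
  fun_prop

lemma lf_smul (u : ℝ) (c y : Fin n → ℝ) : lf (fun j => u * c j) y = u * lf c y := by
  unfold lf
  rw [Finset.mul_sum]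
  exact Finset.sum_congr rfl fun j _ => by ring

lemma qf_smul (C : Fin n → Fin n → ℝ) (u : ℝ) (c : Fin n → ℝ) :
    qf C (fun j => u * c j) = u ^ 2 * qf C c := by
  unfold qf
  rw [Finset.mul_sum]
  refine Finset.sum_congr rfl fun j _ => ?_
  rw [Finset.mul_sum]
  exact Finset.sum_congr rfl fun i _ => by ring

/-- the law of a linear form -/
noncomputable def kp (c : Fin n → ℝ) (μ : ProbabilityMeasure (Fin n → ℝ)) : ProbabilityMeasure ℝ :=
  μ.map (lf_cont c).measurable.aemeasurable

lemma kp_exp (c : Fin n → ℝ) (μ : ProbabilityMeasure (Fin n → ℝ)) (u : ℝ) :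
    ∫ x, Real.exp (u * x) ∂(kp c μ : Measure ℝ) =
      ∫ y, Real.exp (lf (fun j => u * c j) y) ∂(μ : Measure (Fin n → ℝ)) := by
  unfold kp
  rw [ProbabilityMeasure.toMeasure_map, integral_map (lf_cont c).measurable.aemeasurable
    (by fun_prop)]
  simp only [lf_smul]

lemma kp_int (c : Fin n → ℝ) (μ : ProbabilityMeasure (Fin n → ℝ)) (u : ℝ)
    (h : Integrable (fun y => Real.exp (lf (fun j => u * c j) y)) (μ : Measure (Fin n → ℝ))) :
    Integrable (fun x => Real.exp (u * x)) (kp c μ : Measure ℝ) := by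
  unfold kp
  rw [ProbabilityMeasure.toMeasure_map, integrable_map_measure (by fun_prop)
    (lf_cont c).measurable.aemeasurable]
  refine h.congr (Eventually.of_forall fun y => ?_)
  simp only [lf_smul, Function.comp]

/-- the variances of the limit are nonnegative -/
lemma var_nonneg {κ : ℝ → ProbabilityMeasure ℝ} {a v r : ℝ} (hr : 0 < r)
    (h : ∀ u : ℝ, |u| < r → (∀ᶠ T in atTop, Integrable (fun x => Real.exp (u * x)) (κ T : Measure ℝ)) ∧
      Tendsto (fun T => ∫ x, Real.exp (u * x) ∂(κ T : Measure ℝ)) atTop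
        (𝓝 (Real.exp (u * a + u ^ 2 * v / 2)))) : 0 ≤ v := by
  obtain ⟨u, hu⟩ : ∃ u : ℝ, u = r / 2 := ⟨_, rfl⟩
  have hu0 : 0 < u := by rw [hu]; positivity
  have hur : |u| < r := by rw [abs_of_pos hu0]; linarith
  have hur' : |-u| < r := by rwa [abs_neg]
  obtain ⟨i1, t1⟩ := h u hur
  obtain ⟨i2, t2⟩ := h (-u) hur'
  have h1 := t1.add (t2.const_mul (Real.exp (2 * u * a)))
  have h2 : 2 * Real.exp (u * a) ≤ Real.exp (u * a + u ^ 2 * v / 2) +
      Real.exp (2 * u * a) * Real.exp (-u * a + (-u) ^ 2 * v / 2) := by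
    refine ge_of_tendsto h1 ?_
    filter_upwards [i1, i2] with T a1 a2
    have h3 : ∫ _x, 2 * Real.exp (u * a) ∂(κ T : Measure ℝ) ≤
        ∫ x, (Real.exp (u * x) + Real.exp (2 * u * a) * Real.exp (-u * x)) ∂(κ T : Measure ℝ) := by
      refine integral_mono (integrable_const _) (a1.add (a2.const_mul _)) fun x => ?_
      have e1 : Real.exp (2 * u * a) * Real.exp (-u * x) =
          Real.exp (u * a) * (Real.exp (u * a) * Real.exp (-(u * x))) := by
        rw [← Real.exp_add, ← Real.exp_add, ← Real.exp_add]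
        congr 1
        ring
      have e2 : Real.exp (u * x) * Real.exp (-(u * x)) = 1 := by
        rw [← Real.exp_add]; simp
      show 2 * Real.exp (u * a) ≤ Real.exp (u * x) + Real.exp (2 * u * a) * Real.exp (-u * x)
      rw [e1]
      have p1 := Real.exp_pos (u * a)
      have p2 := Real.exp_pos (u * x)
      have p3 := Real.exp_pos (-(u * x))
      nlinarith [sq_nonneg (Real.exp (u * x) - Real.exp (u * a)), mul_pos p1 p3, mul_pos p2 p3]
    rw [integral_const, integral_add a1 (a2.const_mul _), integral_const_mul] at h3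
    simpa using h3
  have e3 : Real.exp (u * a + u ^ 2 * v / 2) +
      Real.exp (2 * u * a) * Real.exp (-u * a + (-u) ^ 2 * v / 2) =
      2 * Real.exp (u * a) * Real.exp (u ^ 2 * v / 2) := by
    rw [← Real.exp_add, show 2 * u * a + (-u * a + (-u) ^ 2 * v / 2) = u * a + u ^ 2 * v / 2 by ring,
      Real.exp_add]
    ring
  rw [e3] at h2
  have p1 := Real.exp_pos (u * a)
  have h4 : 1 ≤ Real.exp (u ^ 2 * v / 2) := by
    have := le_of_mul_le_mul_left (a := 2 * Real.exp (u * a)) (b := 1)
      (c := Real.exp (u ^ 2 * v / 2)) (by linarith) (by positivity)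
    exact this
  have h5 := Real.one_le_exp_iff.1 h4
  have hu2 : 0 < u ^ 2 := by positivity
  nlinarith

/-- the linear forms converge in law -/
lemma forms {μ : ℝ → ProbabilityMeasure (Fin n → ℝ)} {m : Fin n → ℝ} {C : Fin n → Fin n → ℝ} {r : ℝ}
    (hr : 0 < r) (h : ∀ θ : Fin n → ℝ, (∀ j, |θ j| < r) → Lap μ m C θ) (c : Fin n → ℝ) :
    0 ≤ qf C c ∧ Tendsto (fun T => kp c (μ T)) atTop
      (𝓝 ⟨gaussianReal (lf c m) (qf C c).toNNReal, inferInstance⟩) := by
  obtain ⟨K, hK⟩ : ∃ K : ℝ, K = 1 + ∑ j, |c j| := ⟨_, rfl⟩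
  have hs : 0 ≤ ∑ j, |c j| := Finset.sum_nonneg fun j _ => abs_nonneg _
  have hK0 : 0 < K := by rw [hK]; linarith
  have hr' : 0 < r / K := by positivity
  have hθ : ∀ u : ℝ, |u| < r / K → ∀ j, |u * c j| < r := by
    intro u hu j
    have h1 : |c j| ≤ K := by
      have := Finset.single_le_sum (f := fun j => |c j|) (fun j _ => abs_nonneg _) (Finset.mem_univ j)
      rw [hK]
      linarith
    rw [abs_mul]
    rw [lt_div_iff₀ hK0] at hu
    exact (mul_le_mul_of_nonneg_left h1 (abs_nonneg u)).trans_lt hu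
  have hL : ∀ u : ℝ, |u| < r / K →
      (∀ᶠ T in atTop, Integrable (fun x => Real.exp (u * x)) (kp c (μ T) : Measure ℝ)) ∧
      Tendsto (fun T => ∫ x, Real.exp (u * x) ∂(kp c (μ T) : Measure ℝ)) atTop
        (𝓝 (Real.exp (u * lf c m + u ^ 2 * qf C c / 2))) := by
    intro u hu
    obtain ⟨h1, h2⟩ := h (fun j => u * c j) (hθ u hu)
    refine ⟨h1.mono fun T hT => kp_int c (μ T) u hT, ?_⟩
    rw [lf_smul, qf_smul] at h2
    exact h2.congr fun T => (kp_exp c (μ T) u).symm
  have hv : 0 ≤ qf C c := var_nonneg hr' hL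
  refine ⟨hv, curt hr' (fun s _ => gauss_int _ _ s) (fun s hs => (hL s hs).1) fun s hs => ?_⟩
  have e1 := gauss_mgf' (lf c m) (qf C c).toNNReal s
  rw [Real.coe_toNNReal _ hv] at e1
  have h5 := (hL s hs).2
  rw [← e1] at h5
  exact h5

/-- job SHL-BALL -/
theorem ball : S_BALL := by
  intro n μ m C r hr hsym h
  have hf := fun c => forms hr h c
  -- the candidate
  have hP : (Matrix.of C).PosSemidef := by
    refine Matrix.PosSemidef.of_dotProduct_mulVec_nonneg ?_ fun x => ?_
    · ext i j
      simp [Matrix.conjTranspose_apply, hsym j i]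
    · have h1 := (hf x).1
      have e1 : star x ⬝ᵥ (Matrix.of C).mulVec x = qf C x := by
        unfold qf
        simp only [dotProduct, Matrix.mulVec, star_trivial, Matrix.of_apply]
        refine Finset.sum_congr rfl fun i _ => ?_
        rw [Finset.mul_sum]
        exact Finset.sum_congr rfl fun j _ => by ring
      rw [e1]
      exact h1
  obtain ⟨mE, hmE⟩ : ∃ mE : EuclideanSpace ℝ (Fin n), mE = WithLp.toLp 2 m := ⟨_, rfl⟩
  obtain ⟨ρE, hρE⟩ : ∃ ρE : ProbabilityMeasure (EuclideanSpace ℝ (Fin n)),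
      (ρE : Measure (EuclideanSpace ℝ (Fin n))) = multivariateGaussian mE (Matrix.of C) :=
    ⟨⟨multivariateGaussian mE (Matrix.of C), inferInstance⟩, rfl⟩
  have hto : Continuous (fun y : Fin n → ℝ => (WithLp.toLp 2 y : EuclideanSpace ℝ (Fin n))) :=
    PiLp.continuous_toLp 2 _
  have hof : Continuous (fun y : EuclideanSpace ℝ (Fin n) => (WithLp.ofLp y : Fin n → ℝ)) :=
    PiLp.continuous_ofLp 2 _
  obtain ⟨μE, hμE⟩ : ∃ μE : ℝ → ProbabilityMeasure (EuclideanSpace ℝ (Fin n)),
      ∀ T, μE T = (μ T).map hto.measurable.aemeasurable := ⟨fun T => _, fun T => rfl⟩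
  have hchar : ∀ (T : ℝ) (t : EuclideanSpace ℝ (Fin n)),
      charFun (μE T : Measure (EuclideanSpace ℝ (Fin n))) t =
        charFun (kp (WithLp.ofLp t) (μ T) : Measure ℝ) 1 := by
    intro T t
    rw [hμE, ProbabilityMeasure.toMeasure_map, charFun_apply, charFun_apply_real, kp,
      ProbabilityMeasure.toMeasure_map, integral_map hto.measurable.aemeasurable (by fun_prop),
      integral_map (lf_cont _).measurable.aemeasurable (by fun_prop)]
    refine integral_congr_ae (Eventually.of_forall fun y => ?_)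
    simp only
    congr 2
    rw [Complex.ofReal_one, one_mul]
    congr 1
  have hlim : ∀ t : EuclideanSpace ℝ (Fin n),
      Tendsto (fun T => charFun (μE T : Measure (EuclideanSpace ℝ (Fin n))) t) atTop
        (𝓝 (charFun (ρE : Measure (EuclideanSpace ℝ (Fin n))) t)) := by
    intro t
    have h1 := (hf (WithLp.ofLp t)).2
    have h2 := (ProbabilityMeasure.tendsto_iff_forall_integral_rclike_tendsto ℂ).1 h1
      (innerProbChar (1 : ℝ))
    have e1 : charFun (ρE : Measure (EuclideanSpace ℝ (Fin n))) t =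
        charFun (gaussianReal (lf (WithLp.ofLp t) m) (qf C (WithLp.ofLp t)).toNNReal) 1 := by
      rw [hρE, charFun_multivariateGaussian hP, charFun_gaussianReal, hmE]
      congr 1
      have e2 : (inner ℝ t (WithLp.toLp 2 m) : ℝ) = lf (WithLp.ofLp t) m := by
        rw [PiLp.inner_apply]
        unfold lf
        refine Finset.sum_congr rfl fun j _ => ?_
        simp [mul_comm]
      have e3 : (t.ofLp ⬝ᵥ (Matrix.of C).mulVec t.ofLp : ℝ) = qf C (WithLp.ofLp t) := by
        unfold qf
        simp only [dotProduct, Matrix.mulVec, Matrix.of_apply]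
        refine Finset.sum_congr rfl fun i _ => ?_
        rw [Finset.mul_sum]
        exact Finset.sum_congr rfl fun j _ => by ring
      rw [e2, e3, Real.coe_toNNReal _ (hf _).1]
      push_cast
      ring
    rw [e1]
    simp_rw [hchar, charFun_eq_integral_innerProbChar]
    exact h2
  have hE : Tendsto μE atTop (𝓝 ρE) := by
    refine tendsto_of_seq_tendsto fun x hx => ?_
    exact ProbabilityMeasure.tendsto_of_tendsto_charFun fun t => (hlim t).comp hx
  obtain ⟨ρ, hρ⟩ : ∃ ρ : ProbabilityMeasure (Fin n → ℝ), ρ = ρE.map hof.measurable.aemeasurable :=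
    ⟨_, rfl⟩
  have hμ : ∀ T, (μE T).map hof.measurable.aemeasurable = μ T := by
    intro T
    apply Subtype.ext
    rw [hμE]
    change ((μ T : Measure (Fin n → ℝ)).map _).map _ = (μ T : Measure (Fin n → ℝ))
    rw [Measure.map_map hof.measurable hto.measurable]
    exact Measure.map_id
  have hT : Tendsto μ atTop (𝓝 ρ) := by
    have h1 := ProbabilityMeasure.tendsto_map_of_tendsto_of_continuous μE ρE hE hof
    simp only [hμ] at h1
    rw [hρ]
    exact h1
  refine ⟨ρ, fun c => ⟨(hf c).1, ?_⟩, hT⟩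
  have h1 := ProbabilityMeasure.tendsto_map_of_tendsto_of_continuous μ ρ hT (lf_cont c)
  have h2 := tendsto_nhds_unique h1 (hf c).2
  have h3 := congrArg (fun κ : ProbabilityMeasure ℝ => (κ : Measure ℝ)) h2
  exact h3

end Pool.Agent.V11128.SHL
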