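import Pool.Agent.Y753.NL.Cur
import Pool.Agent.Y753.SHR.Stm3

set_option autoImplicit false

/-! Curtiss' theorem on the line, Laplace transforms in a neighbourhood of zero, normal limit. -/

namespace Pool.Agent.V11128.SHL

open MeasureTheory Filter Topology ProbabilityTheory BoundedContinuousFunction
open Pool.Agent.Y753.NL

lemma tight_exp (C a : ℝ) (ha : 0 < a) : IsTightMeasureSet {((μ : ProbabilityMeasure ℝ) : Measure ℝ) | μ ∈
    {μ : ProbabilityMeasure ℝ | Integrable (fun x => Real.exp (a * x)) (μ : Measure ℝ) ∧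
      Integrable (fun x => Real.exp (-a * x)) (μ : Measure ℝ) ∧
      ∫ x, Real.exp (a * x) ∂(μ : Measure ℝ) ≤ C ∧ ∫ x, Real.exp (-a * x) ∂(μ : Measure ℝ) ≤ C}} := by
  rw [isTightMeasureSet_iff_exists_isCompact_measure_compl_le]
  intro ε hε
  obtain ⟨r, hr⟩ : ∃ r : ℝ, ENNReal.ofReal (2 * C * Real.exp (-(a * r))) ≤ ε := by
    have h0 : Tendsto (fun r : ℝ => a * r) atTop atTop := tendsto_id.const_mul_atTop ha
    have h1 : Tendsto (fun r : ℝ => ENNReal.ofReal (2 * C * Real.exp (-(a * r)))) atTop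
        (𝓝 (ENNReal.ofReal (2 * C * 0))) :=
      ENNReal.tendsto_ofReal ((Real.tendsto_exp_neg_atTop_nhds_zero.comp h0).const_mul _)
    rw [mul_zero, ENNReal.ofReal_zero] at h1
    exact ((h1.eventually (gt_mem_nhds hε)).exists).imp fun r hr => hr.le
  refine ⟨Metric.closedBall 0 r, isCompact_closedBall 0 r, ?_⟩
  rintro _ ⟨μ, ⟨h1, h2, h3, h4⟩, rfl⟩
  refine le_trans ?_ hr
  have h5 : (μ : Measure ℝ).real (Metric.closedBall 0 r)ᶜ ≤ 2 * C * Real.exp (-(a * r)) := by
    have hm : MeasurableSet (Metric.closedBall (0:ℝ) r)ᶜ := Metric.isClosed_closedBall.measurableSet.compl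
    rw [← integral_indicator_one hm]
    have h6 : ∫ x, (Metric.closedBall (0:ℝ) r)ᶜ.indicator 1 x ∂(μ : Measure ℝ) ≤
        ∫ x, (Real.exp (a * x) + Real.exp (-a * x)) * Real.exp (-(a * r)) ∂(μ : Measure ℝ) := by
      refine integral_mono ?_ ((h1.add h2).mul_const _) fun x => ?_
      · exact (integrable_const (1:ℝ)).indicator hm
      · by_cases hx : x ∈ (Metric.closedBall (0:ℝ) r)ᶜ
        · rw [Set.indicator_of_mem hx]
          rw [Set.mem_compl_iff, Metric.mem_closedBall, Real.dist_eq, sub_zero, not_le] at hx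
          show (1:ℝ) ≤ (Real.exp (a * x) + Real.exp (-a * x)) * Real.exp (-(a * r))
          rcases le_or_gt 0 x with h0 | h0
          · rw [abs_of_nonneg h0] at hx
            have : 1 ≤ Real.exp (a * x) * Real.exp (-(a * r)) := by
              rw [← Real.exp_add]; exact Real.one_le_exp (by nlinarith)
            nlinarith [mul_pos (Real.exp_pos (-a * x)) (Real.exp_pos (-(a * r)))]
          · rw [abs_of_neg h0] at hx
            have : 1 ≤ Real.exp (-a * x) * Real.exp (-(a * r)) := by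
              rw [← Real.exp_add]; exact Real.one_le_exp (by nlinarith)
            nlinarith [mul_pos (Real.exp_pos (a * x)) (Real.exp_pos (-(a * r)))]
        · rw [Set.indicator_of_notMem hx]
          positivity
    refine h6.trans ?_
    rw [integral_mul_const, integral_add h1 h2]
    exact mul_le_mul_of_nonneg_right (by linarith) (Real.exp_pos _).le
  rw [measureReal_def] at h5
  exact ENNReal.le_ofReal_iff_toReal_le (measure_ne_top _ _) (le_trans ENNReal.toReal_nonneg h5) |>.mpr h5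

lemma gauss_int (m : ℝ) (v : NNReal) (s : ℝ) : Integrable (fun x => Real.exp (s * x)) (gaussianReal m v) :=
  integrable_exp_mul_gaussianReal s

lemma gauss_mgf' (m : ℝ) (v : NNReal) (s : ℝ) :
    ∫ x, Real.exp (s * x) ∂(gaussianReal m v) = Real.exp (s * m + s ^ 2 * v / 2) := by
  have h := congrFun (mgf_id_gaussianReal (μ := m) (v := v)) s
  unfold mgf at h
  simp only [id] at h
  rw [h]
  congr 1
  ring

/-- Laplace transforms near zero determine the law -/
lemma uniq {ρ ν : Measure ℝ} [IsProbabilityMeasure ρ] [IsProbabilityMeasure ν] {r : ℝ} (hr : 0 < r)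
    (h1 : ∀ s : ℝ, |s| < r → Integrable (fun x => Real.exp (s * x)) ρ)
    (h2 : ∀ s : ℝ, |s| < r → Integrable (fun x => Real.exp (s * x)) ν)
    (h : ∀ s : ℝ, |s| < r → ∫ x, Real.exp (s * x) ∂ρ = ∫ x, Real.exp (s * x) ∂ν) : ρ = ν := by
  have hin : ∀ {κ : Measure ℝ}, (∀ s : ℝ, |s| < r → Integrable (fun x => Real.exp (s * x)) κ) →
      ∀ z : ℂ, z.re ∈ Set.Ioo (-r) r → z.re ∈ interior (integrableExpSet id κ) := by
    intro κ hκ z hz
    rw [mem_interior]
    exact ⟨Set.Ioo (-r) r, fun s hs => hκ s (abs_lt.2 hs), isOpen_Ioo, hz⟩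
  have hX : AnalyticOnNhd ℂ (complexMGF id ρ) {z | z.re ∈ Set.Ioo (-r) r} := fun z hz =>
    analyticAt_complexMGF (hin h1 z hz)
  have hY : AnalyticOnNhd ℂ (complexMGF id ν) {z | z.re ∈ Set.Ioo (-r) r} := fun z hz =>
    analyticAt_complexMGF (hin h2 z hz)
  have hEq : Set.EqOn (complexMGF id ρ) (complexMGF id ν) {z | z.re ∈ Set.Ioo (-r) r} := by
    refine AnalyticOnNhd.eqOn_of_preconnected_of_frequently_eq hX hY
      ((convex_Ioo (-r) r).linear_preimage Complex.reLm).isPreconnected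
      (z₀ := ((0:ℝ) : ℂ)) (by simp [hr]) ?_
    have h_real : ∃ᶠ (x : ℝ) in 𝓝[≠] 0, complexMGF id ρ x = complexMGF id ν x := by
      refine Filter.Eventually.frequently ?_
      have hmem : Set.Ioo (-r) r ∈ 𝓝 (0:ℝ) := Ioo_mem_nhds (by linarith) hr
      filter_upwards [mem_nhdsWithin_of_mem_nhds hmem] with x hx
      rw [complexMGF_ofReal, complexMGF_ofReal]
      have := h x (abs_lt.2 hx)
      unfold mgf
      simp only [id]
      rw [this]
    rw [frequently_iff_seq_forall] at h_real ⊢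
    obtain ⟨xs, hx_tendsto, hx_eq⟩ := h_real
    refine ⟨fun n ↦ xs n, ?_, fun n ↦ ?_⟩
    · rw [tendsto_nhdsWithin_iff] at hx_tendsto ⊢
      constructor
      · exact (Complex.continuous_ofReal.tendsto _).comp hx_tendsto.1
      · simpa using hx_tendsto.2
    · simp [hx_eq]
  refine Measure.ext_of_charFun ?_
  funext t
  rw [← complexMGF_id_mul_I, ← complexMGF_id_mul_I]
  exact hEq (by simp [hr])

/-- Curtiss' theorem, Laplace transforms in a neighbourhood of zero -/
theorem curt {ι : Type*} {l : Filter ι} {μ : ι → ProbabilityMeasure ℝ} {ν : ProbabilityMeasure ℝ}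
    {r : ℝ} (hr : 0 < r) (hν : ∀ s : ℝ, |s| < r → Integrable (fun x => Real.exp (s * x)) (ν : Measure ℝ))
    (hi : ∀ s : ℝ, |s| < r → ∀ᶠ i in l, Integrable (fun x => Real.exp (s * x)) (μ i : Measure ℝ))
    (h : ∀ s : ℝ, |s| < r → Tendsto (fun i => ∫ x, Real.exp (s * x) ∂(μ i : Measure ℝ)) l
      (𝓝 (∫ x, Real.exp (s * x) ∂(ν : Measure ℝ)))) :
    Tendsto μ l (𝓝 ν) := by
  rw [tendsto_iff_ultrafilter]
  intro g hg
  obtain ⟨m, hm⟩ : ∃ m : ℝ → ℝ, ∀ s, m s = ∫ x, Real.exp (s * x) ∂(ν : Measure ℝ) := ⟨_, fun _ => rfl⟩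
  simp_rw [← hm] at h
  have hb : ∀ s : ℝ, |s| < r → ∀ᶠ i in (g : Filter ι), ∫ x, Real.exp (s * x) ∂(μ i : Measure ℝ) ≤ m s + 1 :=
    fun s hs => hg ((h s hs).eventually (ge_mem_nhds (by linarith)))
  obtain ⟨a, ha⟩ : ∃ a : ℝ, a = r / 2 := ⟨_, rfl⟩
  have ha0 : 0 < a := by rw [ha]; positivity
  have ha1 : |a| < r := by rw [abs_of_pos ha0]; linarith
  have ha2 : |-a| < r := by rwa [abs_neg]
  set C := max (m a + 1) (m (-a) + 1) with hC
  set S : Set (ProbabilityMeasure ℝ) := {μ : ProbabilityMeasure ℝ | Integrable (fun x => Real.exp (a * x)) (μ : Measure ℝ) ∧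
      Integrable (fun x => Real.exp (-a * x)) (μ : Measure ℝ) ∧
      ∫ x, Real.exp (a * x) ∂(μ : Measure ℝ) ≤ C ∧ ∫ x, Real.exp (-a * x) ∂(μ : Measure ℝ) ≤ C} with hS
  have hcomp : IsCompact (closure S) := isCompact_closure_of_isTightMeasureSet (tight_exp C a ha0)
  have hmem : ∀ᶠ i in (g : Filter ι), μ i ∈ S := by
    filter_upwards [hg (hi a ha1), hg (hi (-a) ha2), hb a ha1, hb (-a) ha2] with i a1 a2 a3 a4
    exact ⟨a1, a2, a3.trans (le_max_left _ _), a4.trans (le_max_right _ _)⟩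
  obtain ⟨ρ, -, hρ⟩ := isCompact_iff_ultrafilter_le_nhds.mp hcomp (g.map μ) (by
    rw [Ultrafilter.coe_map, le_principal_iff, mem_map]
    filter_upwards [hmem] with i hi
    exact subset_closure hi)
  have hT : Tendsto μ g (𝓝 ρ) := hρ
  have hF := ProbabilityMeasure.tendsto_iff_forall_integral_tendsto.mp hT
  have h2s : ∀ s : ℝ, |s| < a → |2 * s| < r := fun s hs => by
    rw [abs_mul, abs_of_pos (by norm_num : (0:ℝ) < 2)]; linarith
  have h1s : ∀ s : ℝ, |s| < a → |s| < r := fun s hs => by linarith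
  have key : ∀ s : ℝ, |s| < a → ∀ R : ℝ, ∀ hR : 0 < R,
      |∫ x, te s R hR.le x ∂(ρ : Measure ℝ) - m s| ≤ (m (2 * s) + 1) / R := by
    intro s hs R hR
    have h1 := (hF (te s R hR.le)).sub ((h s (h1s s hs)).mono_left hg)
    refine le_of_tendsto h1.abs ?_
    filter_upwards [hg (hi s (h1s s hs)), hg (hi (2 * s) (h2s s hs)), hb (2 * s) (h2s s hs)] with i a1 a2 a3
    refine (te_near hR a1 a2).trans ?_
    exact div_le_div_of_nonneg_right a3 hR.le
  have hm0 : ∀ s, 0 ≤ m s := fun s => by rw [hm]; exact integral_nonneg fun x => (Real.exp_pos _).le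
  have hint : ∀ s : ℝ, |s| < a → Integrable (fun x => Real.exp (s * x)) (ρ : Measure ℝ) := by
    intro s hs
    refine te_lim (C := m s + (m (2 * s) + 1)) fun R hR => ?_
    rcases le_or_gt 1 R with h1 | h1
    · have h2 := (abs_le.mp (key s hs R hR)).2
      have h3 : (m (2 * s) + 1) / R ≤ m (2 * s) + 1 := div_le_self (by have := hm0 (2 * s); linarith) h1
      linarith
    · have h2 := (abs_le.mp (key s hs 1 one_pos)).2
      have h4 : ∫ x, te s R hR.le x ∂(ρ : Measure ℝ) ≤ ∫ x, te s 1 zero_le_one x ∂(ρ : Measure ℝ) := by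
        refine integral_mono ((te s R hR.le).integrable _) ((te s 1 zero_le_one).integrable _) fun x => ?_
        show te s R hR.le x ≤ te s 1 zero_le_one x
        rw [te_apply, te_apply]
        exact min_le_min le_rfl h1.le
      rw [div_one] at h2
      linarith
  have heq : ∀ s : ℝ, |s| < a / 2 → ∫ x, Real.exp (s * x) ∂(ρ : Measure ℝ) = m s := by
    intro s hs
    have hsa : |s| < a := by linarith
    have h2sa : |2 * s| < a := by rw [abs_mul, abs_of_pos (by norm_num : (0:ℝ) < 2)]; linarith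
    have h1 : ∀ R : ℝ, 0 < R → |∫ x, Real.exp (s * x) ∂(ρ : Measure ℝ) - m s| ≤
        ((∫ x, Real.exp (2 * s * x) ∂(ρ : Measure ℝ)) + (m (2 * s) + 1)) / R := by
      intro R hR
      have h2 := te_near hR (hint s hsa) (hint (2 * s) h2sa)
      have h3 := key s hsa R hR
      rw [abs_sub_comm] at h2
      have h4 := abs_add_le (∫ x, Real.exp (s * x) ∂(ρ : Measure ℝ) - ∫ x, te s R hR.le x ∂(ρ : Measure ℝ))
        (∫ x, te s R hR.le x ∂(ρ : Measure ℝ) - m s)
      rw [sub_add_sub_cancel] at h4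
      rw [add_div]
      linarith
    have h5 : Tendsto (fun R : ℝ => ((∫ x, Real.exp (2 * s * x) ∂(ρ : Measure ℝ)) + (m (2 * s) + 1)) / R) atTop (𝓝 0) :=
      tendsto_const_nhds.div_atTop tendsto_id
    have h6 : |∫ x, Real.exp (s * x) ∂(ρ : Measure ℝ) - m s| ≤ 0 :=
      ge_of_tendsto h5 ((eventually_gt_atTop 0).mono fun R hR => h1 R hR)
    exact sub_eq_zero.mp (abs_eq_zero.mp (le_antisymm h6 (abs_nonneg _)))
  have hfin' : (ρ : Measure ℝ) = (ν : Measure ℝ) :=
    uniq (half_pos ha0) (fun s hs => hint s (by linarith)) (fun s hs => hν s (by linarith))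
      fun s hs => by rw [heq s hs, hm]
  have hfin : ρ = ν := Subtype.ext hfin'
  rw [hfin] at hT
  exact hT

end Pool.Agent.V11128.SHL
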